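import Pool.Agent.TH.NoXB

/-!
# H14 NX Curve: directional derivatives and the zero curve of a vector valued function, all dimensions

* `iteratedDeriv_dir`: the iterated derivatives of `t ↦ f (w + t y)` at `0` are analytic functions of `w`.
* `contact`: if `β p' = β p` along two curves with contact of order `m`, then `dβ` kills the leading coefficient of the difference.
* `exists_curve`: the zero set of `f` is a smooth curve.
-/

set_option autoImplicit false

open Topology Filter Metric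

namespace Pool.Agent.H14.NX

section dir

variable {E F : Type*} [NormedAddCommGroup E] [NormedSpace ℂ E] [NormedAddCommGroup F] [NormedSpace ℂ F] [CompleteSpace F]

/-- the derivative in the direction `y` -/
noncomputable def dy (y : E) (f : E → F) (w : E) : F := fderiv ℂ f w y

theorem analyticAt_dy {f : E → F} {w : E} (hf : AnalyticAt ℂ f w) (y : E) : AnalyticAt ℂ (dy y f) w :=
  ((ContinuousLinearMap.apply ℂ F y).analyticAt (fderiv ℂ f w)).comp hf.fderiv

theorem analyticAt_iter {f : E → F} {w : E} (hf : AnalyticAt ℂ f w) (y : E) (j : ℕ) : AnalyticAt ℂ ((dy y)^[j] f) w := by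
  induction j with
  | zero => simpa using hf
  | succ j ih =>
    rw [Function.iterate_succ_apply']
    exact analyticAt_dy ih y

omit [CompleteSpace F] in
theorem deriv_dir {f : E → F} {w y : E} {t : ℂ} (hf : DifferentiableAt ℂ f (w + t • y)) : deriv (fun t : ℂ => f (w + t • y)) t = dy y f (w + t • y) := by
  have h1 : HasDerivAt (fun t : ℂ => w + t • y) ((1 : ℂ) • y) t := ((hasDerivAt_id t).smul_const y).const_add w
  rw [one_smul] at h1
  exact (hf.hasFDerivAt.comp_hasDerivAt t h1).deriv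

theorem iteratedDeriv_dir {f : E → F} {w₀ : E} (hf : AnalyticAt ℂ f w₀) (y : E) (j : ℕ) :
    ∀ᶠ w in 𝓝 w₀, iteratedDeriv j (fun t : ℂ => f (w + t • y)) 0 = ((dy y)^[j] f) w := by
  induction j generalizing f with
  | zero => simp
  | succ j ih =>
    filter_upwards [ih (analyticAt_dy hf y), hf.eventually_analyticAt.eventually_nhds] with w hw hw2
    rw [iteratedDeriv_succ', Function.iterate_succ_apply, ← hw]
    refine Filter.EventuallyEq.iteratedDeriv_eq j ?_
    have h3 : Tendsto (fun t : ℂ => w + t • y) (𝓝 0) (𝓝 w) := by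
      have h4 : Continuous fun t : ℂ => w + t • y := by fun_prop
      have h5 := h4.tendsto 0
      simpa using h5
    filter_upwards [h3.eventually hw2] with t ht
    exact deriv_dir ht.differentiableAt

theorem analyticAt_jet {f : E → F} {w₀ : E} (hf : AnalyticAt ℂ f w₀) (y : E) (j : ℕ) :
    AnalyticAt ℂ (fun w => iteratedDeriv j (fun t : ℂ => f (w + t • y)) 0) w₀ := by
  refine (analyticAt_iter hf y j).congr ?_
  filter_upwards [iteratedDeriv_dir hf y j] with w hw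
  exact hw.symm

end dir

theorem iteratedDeriv_coord {n : ℕ} {G : ℂ → (Fin n → ℂ)} {t : ℂ} (hG : AnalyticAt ℂ G t) (j : ℕ) (l : Fin n) :
    iteratedDeriv j (fun t => G t l) t = iteratedDeriv j G t l := by
  have h := (ContinuousLinearMap.proj l : (Fin n → ℂ) →L[ℂ] ℂ).iteratedFDeriv_comp_left (hG.contDiffAt (n := j)) le_rfl
  rw [iteratedDeriv_eq_iteratedFDeriv, iteratedDeriv_eq_iteratedFDeriv]
  exact congrArg (fun L => L (fun _ => 1)) h

/-- two curves with contact of order `m` and the same image under `β` -/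
theorem contact {E F : Type*} [NormedAddCommGroup E] [NormedSpace ℂ E] [CompleteSpace E] [NormedAddCommGroup F] [NormedSpace ℂ F]
    {β : E → F} {A : E →L[ℂ] F} {p p' : ℂ → E} (hp : AnalyticAt ℂ p 0) (hp' : AnalyticAt ℂ p' 0) (h0 : p 0 = p' 0) (hβ : HasStrictFDerivAt β A (p 0))
    (heq : ∀ᶠ t in 𝓝 0, β (p' t) = β (p t)) {m : ℕ} (hj : ∀ j < m, iteratedDeriv j (fun t => p' t - p t) 0 = 0) :
    A (iteratedDeriv m (fun t => p' t - p t) 0) = 0 := by
  set δ : ℂ → E := fun t => p' t - p t with hδ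
  set P : E := iteratedDeriv m δ 0 with hP
  have hδan : AnalyticAt ℂ δ 0 := hp'.sub hp
  obtain ⟨R, hR, hT⟩ := hδan.exists_eventuallyEq_sum_add_pow_mul (m + 1)
  have hT' : ∀ᶠ t in 𝓝 (0 : ℂ), δ t = t ^ m • (((m.factorial : ℂ)⁻¹) • P + t • R t) := by
    filter_upwards [hT] with t ht
    rw [ht, Finset.sum_range_succ, Finset.sum_eq_zero (fun i hi => by rw [hj i (Finset.mem_range.1 hi), smul_zero]), zero_add, smul_add, smul_smul, smul_smul, pow_succ,
      div_eq_mul_inv]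
  have hlim : Tendsto (fun t : ℂ => ((m.factorial : ℂ)⁻¹) • P + t • R t) (𝓝[≠] 0) (𝓝 (((m.factorial : ℂ)⁻¹) • P)) := by
    have h1 : ContinuousAt (fun t : ℂ => ((m.factorial : ℂ)⁻¹) • P + t • R t) 0 := by
      have := hR.continuousAt
      fun_prop
    have h2 := h1.tendsto
    simp only [zero_smul, add_zero] at h2
    exact h2.mono_left nhdsWithin_le_nhds
  have hpp : Tendsto (fun t : ℂ => (p' t, p t)) (𝓝 0) (𝓝 (p 0, p 0)) := by
    have h1 := hp'.continuousAt.tendsto.prodMk_nhds hp.continuousAt.tendsto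
    rwa [← h0] at h1
  have hsmall : ∀ ε : ℝ, 0 < ε → ‖A (((m.factorial : ℂ)⁻¹) • P)‖ ≤ ε * ‖((m.factorial : ℂ)⁻¹) • P‖ := by
    intro ε hε
    have h1 := hpp.eventually (hβ.isLittleO.bound hε)
    have h2 : ∀ᶠ t in 𝓝[≠] (0 : ℂ), ‖A (((m.factorial : ℂ)⁻¹) • P + t • R t)‖ ≤ ε * ‖((m.factorial : ℂ)⁻¹) • P + t • R t‖ := by
      filter_upwards [nhdsWithin_le_nhds h1, nhdsWithin_le_nhds heq, nhdsWithin_le_nhds hT', self_mem_nhdsWithin] with t ht1 ht2 ht3 ht4
      have ht5 : t ≠ 0 := ht4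
      rw [ht2, sub_self, zero_sub, norm_neg] at ht1
      have h6 : p' t - p t = t ^ m • (((m.factorial : ℂ)⁻¹) • P + t • R t) := ht3
      rw [h6, map_smul, norm_smul, norm_smul] at ht1
      have h7 : 0 < ‖t ^ m‖ := norm_pos_iff.2 (pow_ne_zero _ ht5)
      have h8 : ‖t ^ m‖ * ‖A (((m.factorial : ℂ)⁻¹) • P + t • R t)‖ ≤ ‖t ^ m‖ * (ε * ‖((m.factorial : ℂ)⁻¹) • P + t • R t‖) := by
        calc _ ≤ ε * (‖t ^ m‖ * ‖((m.factorial : ℂ)⁻¹) • P + t • R t‖) := ht1
          _ = _ := by ring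
      exact le_of_mul_le_mul_left h8 h7
    have h3 := ((A.continuous.tendsto _).comp hlim).norm
    have h4 := (hlim.norm).const_mul ε
    exact le_of_tendsto_of_tendsto h3 h4 h2
  have hzero : ‖A (((m.factorial : ℂ)⁻¹) • P)‖ = 0 := by
    refine le_antisymm (le_of_forall_pos_le_add fun e he => ?_) (norm_nonneg _)
    have h1 := hsmall (e / (‖((m.factorial : ℂ)⁻¹) • P‖ + 1)) (by positivity)
    have h2 : e / (‖((m.factorial : ℂ)⁻¹) • P‖ + 1) * ‖((m.factorial : ℂ)⁻¹) • P‖ ≤ e := by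
      rw [div_mul_eq_mul_div, div_le_iff₀ (by positivity)]
      nlinarith [norm_nonneg (((m.factorial : ℂ)⁻¹) • P)]
    linarith
  rw [norm_eq_zero, map_smul, smul_eq_zero] at hzero
  rcases hzero with h | h
  · exact absurd h (inv_ne_zero (by exact_mod_cast m.factorial_ne_zero))
  · exact h

/-- the kernel of a surjective map `ℂ^(n+1) → ℂ^n` -/
theorem ker_line {n : ℕ} {A : (Fin (n + 1) → ℂ) →L[ℂ] (Fin n → ℂ)} (hA : Function.Surjective A) {P : Fin (n + 1) → ℂ} (hP : A P = 0) {l : Fin (n + 1)} (hPl : P l ≠ 0)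
    {v : Fin (n + 1) → ℂ} (hv : A v = 0) (hvl : v l = 0) : v = 0 := by
  have h1 := LinearMap.finrank_range_add_finrank_ker (A : (Fin (n + 1) → ℂ) →ₗ[ℂ] (Fin n → ℂ))
  have h2 : LinearMap.range (A : (Fin (n + 1) → ℂ) →ₗ[ℂ] (Fin n → ℂ)) = ⊤ := LinearMap.range_eq_top.2 hA
  rw [h2, finrank_top, Module.finrank_fin_fun, Module.finrank_fin_fun] at h1
  have h3 : Module.finrank ℂ (LinearMap.ker (A : (Fin (n + 1) → ℂ) →ₗ[ℂ] (Fin n → ℂ))) = 1 := by omega
  have hne : (⟨P, hP⟩ : LinearMap.ker (A : (Fin (n + 1) → ℂ) →ₗ[ℂ] (Fin n → ℂ))) ≠ 0 := by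
    intro h
    have h4 : P = 0 := congrArg Subtype.val h
    exact hPl (by rw [h4]; rfl)
  obtain ⟨c, hc⟩ := (finrank_eq_one_iff_of_nonzero' _ hne).1 h3 ⟨v, hv⟩
  have h4 : c • P = v := congrArg Subtype.val hc
  have h5 : c * P l = 0 := by
    have := congrFun h4 l
    rw [hvl] at this
    exact this
  rcases mul_eq_zero.1 h5 with h6 | h6
  · rw [← h4, h6, zero_smul]
  · exact absurd h6 hPl

/-- local injectivity -/
theorem inj_of {n d : ℕ} {β : (Fin d → ℂ) → (Fin n → ℂ)} {p₀ : Fin d → ℂ} (hβ : AnalyticAt ℂ β p₀) {l : Fin d}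
    (hl : ∀ v : Fin d → ℂ, fderiv ℂ β p₀ v = 0 → v l = 0 → v = 0) :
    ∀ᶠ x : (Fin d → ℂ) × (Fin d → ℂ) in 𝓝 (p₀, p₀), β x.1 = β x.2 → x.1 l = x.2 l → x.1 = x.2 := by
  set B : (Fin d → ℂ) →L[ℂ] (Fin n → ℂ) × ℂ := (fderiv ℂ β p₀).prod (ContinuousLinearMap.proj l) with hB
  have hinj : LinearMap.ker (B : (Fin d → ℂ) →ₗ[ℂ] (Fin n → ℂ) × ℂ) = ⊥ := by
    rw [LinearMap.ker_eq_bot']
    intro v hv
    have h1 : B v = 0 := hv
    exact hl v (congrArg Prod.fst h1) (congrArg Prod.snd h1)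
  obtain ⟨K, hK, hanti⟩ := LinearMap.exists_antilipschitzWith (B : (Fin d → ℂ) →ₗ[ℂ] (Fin n → ℂ) × ℂ) hinj
  have hbound : ∀ v, ‖v‖ ≤ K * ‖B v‖ := by
    intro v
    have := hanti.le_mul_dist v 0
    simpa using this
  have hs : HasStrictFDerivAt β (fderiv ℂ β p₀) p₀ := hβ.hasStrictFDerivAt
  have hK' : (0 : ℝ) < K := by exact_mod_cast hK
  have h1 := hs.isLittleO.bound (c := (2 * K)⁻¹) (by positivity)
  filter_upwards [h1] with x hx h2 h3
  rw [h2, sub_self, zero_sub, norm_neg] at hx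
  have h4 : ‖B (x.1 - x.2)‖ ≤ (2 * (K : ℝ))⁻¹ * ‖x.1 - x.2‖ := by
    rw [hB, ContinuousLinearMap.prod_apply, Prod.norm_mk]
    refine max_le hx ?_
    have h5 : (ContinuousLinearMap.proj l : (Fin d → ℂ) →L[ℂ] ℂ) (x.1 - x.2) = 0 := by
      show (x.1 - x.2) l = 0
      rw [Pi.sub_apply, h3, sub_self]
    rw [h5, norm_zero]
    positivity
  have h5 := hbound (x.1 - x.2)
  have h6 : ‖x.1 - x.2‖ ≤ ‖x.1 - x.2‖ / 2 := by
    calc ‖x.1 - x.2‖ ≤ K * ‖B (x.1 - x.2)‖ := h5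
      _ ≤ K * ((2 * (K : ℝ))⁻¹ * ‖x.1 - x.2‖) := by gcongr
      _ = ‖x.1 - x.2‖ / 2 := by
        field_simp
  have h7 : ‖x.1 - x.2‖ = 0 := by
    have := norm_nonneg (x.1 - x.2)
    linarith
  exact sub_eq_zero.1 (norm_eq_zero.1 h7)

/-- a vector which is not a multiple -/
theorem exists_indep {n : ℕ} (hn : 2 ≤ n) (y : Fin n → ℂ) : ∃ y' : Fin n → ℂ, ∀ c : ℂ, y' + c • y ≠ 0 := by
  have h1 : Submodule.span ℂ {y} ≠ ⊤ := by
    intro h
    have h2 : Module.finrank ℂ (Submodule.span ℂ {y}) ≤ 1 := (finrank_span_le_card ({y} : Set (Fin n → ℂ))).trans (by simp)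
    rw [h, finrank_top, Module.finrank_fin_fun] at h2
    omega
  obtain ⟨y', -, hy'⟩ := SetLike.exists_of_lt (lt_top_iff_ne_top.2 h1)
  refine ⟨y', fun c hc => hy' ?_⟩
  rw [Submodule.mem_span_singleton]
  exact ⟨-c, by rw [neg_smul, eq_comm, eq_neg_iff_add_eq_zero]; exact hc⟩

/-- The curve of contact: `p`, `p'` are maps of `ℂ^n` to `ℂ^(n+1)` which are sections of `β`, and `y` a direction such that at all points near `w₀` where `p` and `p'` agree they have contact of order at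
least `m` in the direction `y`, and the order is exactly `m` at `w₀`. -/
theorem exists_curve {n : ℕ} (hn : 2 ≤ n) {β : (Fin (n + 1) → ℂ) → (Fin n → ℂ)} {p p' : (Fin n → ℂ) → (Fin (n + 1) → ℂ)} {w₀ : Fin n → ℂ} (hp : AnalyticAt ℂ p w₀) (hp' : AnalyticAt ℂ p' w₀) (h0 : p w₀ = p' w₀)
    (hβ : AnalyticAt ℂ β (p w₀)) (hβp : ∀ᶠ w in 𝓝 w₀, β (p w) = β (p w₀) + (w - w₀)) (hβp' : ∀ᶠ w in 𝓝 w₀, β (p' w) = β (p w₀) + (w - w₀)) {y : Fin n → ℂ} {m : ℕ} (hm : 1 ≤ m)
    (hj : ∀ᶠ w in 𝓝 w₀, p w = p' w → ∀ j < m, iteratedDeriv j (fun t : ℂ => p' (w + t • y) - p (w + t • y)) 0 = 0)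
    (hmm : iteratedDeriv m (fun t : ℂ => p' (w₀ + t • y) - p (w₀ + t • y)) 0 ≠ 0) :
    ∃ γ : ℂ → (Fin n → ℂ), AnalyticAt ℂ γ 0 ∧ γ 0 = w₀ ∧ deriv γ 0 ≠ 0 ∧ ∀ᶠ s in 𝓝 (0 : ℂ), p (γ s) = p' (γ s) := by
  set P : Fin (n + 1) → ℂ := iteratedDeriv m (fun t : ℂ => p' (w₀ + t • y) - p (w₀ + t • y)) 0 with hP
  obtain ⟨l, hl⟩ : ∃ l, P l ≠ 0 := by
    by_contra hcon
    push Not at hcon
    exact hmm (funext hcon)
  set A := fderiv ℂ β (p w₀) with hA
  have hline : ∀ w : Fin n → ℂ, Continuous fun t : ℂ => w + t • y := fun w => by fun_prop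
  have hline0 : Tendsto (fun t : ℂ => w₀ + t • y) (𝓝 0) (𝓝 w₀) := by
    have := (hline w₀).tendsto 0
    simpa using this
  have hlinean : ∀ (w : Fin n → ℂ) (t : ℂ), AnalyticAt ℂ (fun t : ℂ => w + t • y) t := fun w t => by fun_prop
  have hpt : AnalyticAt ℂ (fun t : ℂ => p (w₀ + t • y)) 0 := AnalyticAt.fun_comp (g := p) (f := fun t : ℂ => w₀ + t • y) (by simpa using hp) (hlinean w₀ 0)
  have hpt' : AnalyticAt ℂ (fun t : ℂ => p' (w₀ + t • y)) 0 := AnalyticAt.fun_comp (g := p') (f := fun t : ℂ => w₀ + t • y) (by simpa using hp') (hlinean w₀ 0)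
  -- the leading coefficient is in the kernel
  have hAP : A P = 0 := by
    refine contact (β := β) (A := A) (p := fun t : ℂ => p (w₀ + t • y)) (p' := fun t : ℂ => p' (w₀ + t • y)) hpt hpt' (by simpa using h0) ?_ ?_ ?_
    · have := hβ.hasStrictFDerivAt
      simpa using this
    · filter_upwards [hline0.eventually hβp, hline0.eventually hβp'] with t ht ht'
      rw [ht, ht']
    · exact hj.self_of_nhds h0
  -- surjectivity
  have hAsurj : Function.Surjective A := by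
    have h1 : HasFDerivAt (fun w => β (p w)) (A.comp (fderiv ℂ p w₀)) w₀ := hβ.differentiableAt.hasFDerivAt.comp w₀ hp.differentiableAt.hasFDerivAt
    have h2 : HasFDerivAt (fun w => β (p w)) (ContinuousLinearMap.id ℂ (Fin n → ℂ)) w₀ := by
      have h3 : HasFDerivAt (fun w : Fin n → ℂ => β (p w₀) + (w - w₀)) (ContinuousLinearMap.id ℂ (Fin n → ℂ)) w₀ := ((hasFDerivAt_id w₀).sub_const w₀).const_add _
      exact h3.congr_of_eventuallyEq hβp
    have h4 := h1.unique h2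
    intro v
    refine ⟨fderiv ℂ p w₀ v, ?_⟩
    exact congrArg (fun L : (Fin n → ℂ) →L[ℂ] (Fin n → ℂ) => L v) h4
  have hker : ∀ v : Fin (n + 1) → ℂ, fderiv ℂ β (p w₀) v = 0 → v l = 0 → v = 0 := fun v hv hvl => ker_line hAsurj hAP hl hv hvl
  have hinj := inj_of hβ hker
  have hpair : Tendsto (fun w => (p w, p' w)) (𝓝 w₀) (𝓝 (p w₀, p w₀)) := by
    have h1 := hp.continuousAt.tendsto.prodMk_nhds hp'.continuousAt.tendsto
    rwa [← h0] at h1
  -- the equation
  have hkey : ∀ᶠ w in 𝓝 w₀, p' w l - p w l = 0 → p w = p' w := by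
    filter_upwards [hpair.eventually hinj, hβp, hβp'] with w h1 h2 h3 h4
    exact h1 (by rw [h2, h3]) (sub_eq_zero.1 h4).symm
  -- the other direction
  obtain ⟨y', hy'⟩ := exists_indep hn y
  set M : ℂ × ℂ → (Fin n → ℂ) := fun x => w₀ + x.1 • y' + x.2 • y with hM
  have hMc : Continuous M := by
    rw [hM]
    fun_prop
  have hM0 : M 0 = w₀ := by
    simp [hM]
  have hMt : Tendsto M (𝓝 0) (𝓝 w₀) := by
    have := hMc.tendsto 0
    rwa [hM0] at this
  have hMan : ∀ x, AnalyticAt ℂ M x := fun x =>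
    (analyticAt_const.add (analyticAt_fst.smul analyticAt_const)).add (analyticAt_snd.smul analyticAt_const)
  set h : (Fin n → ℂ) → ℂ := fun w => p' w l - p w l with hh
  have hdan : AnalyticAt ℂ (fun w => p' w - p w) w₀ := hp'.sub hp
  have hhan : AnalyticAt ℂ h w₀ := by
    have h1 := ((ContinuousLinearMap.proj l : (Fin (n + 1) → ℂ) →L[ℂ] ℂ).analyticAt (p' w₀ - p w₀)).comp (f := fun w => p' w - p w) hdan
    exact h1
  have hgan : AnalyticAt ℂ (fun x => h (M x)) 0 := AnalyticAt.fun_comp (g := h) (f := M) (by rw [hM0]; exact hhan) (hMan 0)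
  have hcoord : ∀ᶠ w in 𝓝 w₀, ∀ j : ℕ, iteratedDeriv j (fun t : ℂ => h (w + t • y)) 0 = iteratedDeriv j (fun t : ℂ => p' (w + t • y) - p (w + t • y)) 0 l := by
    filter_upwards [hdan.eventually_analyticAt] with w hw j
    have h1 : AnalyticAt ℂ (fun t : ℂ => p' (w + t • y) - p (w + t • y)) 0 := AnalyticAt.fun_comp (g := fun w => p' w - p w) (f := fun t : ℂ => w + t • y) (by simpa using hw) (hlinean w 0)
    exact iteratedDeriv_coord h1 j l
  have hshift : ∀ (j : ℕ) (x : ℂ × ℂ), iteratedDeriv j (fun t : ℂ => h (M (x.1, t))) x.2 = iteratedDeriv j (fun t : ℂ => h (M x + t • y)) 0 := by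
    intro j x
    have h1 := congrFun (iteratedDeriv_comp_add_const j (fun t : ℂ => h (M (x.1, t))) x.2) 0
    rw [zero_add] at h1
    rw [← h1]
    congr 1
    funext t
    congr 1
    simp only [hM]
    rw [add_smul]
    abel
  obtain ⟨τ, hτ, hτ0, hτz⟩ := Pool.Agent.TH.NoXB.exists_zero_curve (g := fun x => h (M x)) hgan hm (by
      intro j hjm
      have h1 := hshift j (0 : ℂ × ℂ)
      rw [hM0, hcoord.self_of_nhds j, hj.self_of_nhds h0 j hjm] at h1
      exact h1) (by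
      have h1 := hshift m (0 : ℂ × ℂ)
      rw [hM0, hcoord.self_of_nhds m] at h1
      intro h2
      apply hl
      rw [hP, ← h1]
      exact h2) (by
      filter_upwards [hMt.eventually hkey, hMt.eventually hj, hMt.eventually hcoord] with x h1 h2 h3 h4 j hjm
      rw [hshift j x, h3 j, h2 (h1 h4) j hjm]
      rfl)
  have hpairan : AnalyticAt ℂ (fun s : ℂ => ((s, τ s) : ℂ × ℂ)) 0 := analyticAt_id.prod hτ
  have hγ : AnalyticAt ℂ (fun s : ℂ => M (s, τ s)) 0 := AnalyticAt.fun_comp (g := M) (f := fun s : ℂ => ((s, τ s) : ℂ × ℂ)) (hMan _) hpairan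
  have hst : Tendsto (fun s : ℂ => ((s, τ s) : ℂ × ℂ)) (𝓝 0) (𝓝 0) := by
    have h1 := hpairan.continuousAt.tendsto
    rw [hτ0] at h1
    exact h1
  refine ⟨fun s => M (s, τ s), hγ, ?_, ?_, ?_⟩
  · show M (0, τ 0) = w₀
    rw [hτ0]
    exact hM0
  · have h1 : HasDerivAt (fun s : ℂ => w₀ + s • y' + τ s • y) (0 + (1 : ℂ) • y' + deriv τ 0 • y) 0 :=
      ((hasDerivAt_const (0 : ℂ) w₀).add ((hasDerivAt_id (0 : ℂ)).smul_const y')).add (hτ.differentiableAt.hasDerivAt.smul_const y)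
    rw [zero_add, one_smul] at h1
    have h2 : deriv (fun s : ℂ => M (s, τ s)) 0 = y' + deriv τ 0 • y := h1.deriv
    rw [h2]
    exact hy' _
  · filter_upwards [hτz, hst.eventually (hMt.eventually hkey)] with s h1 h2
    exact h2 h1

end Pool.Agent.H14.NX
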